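import Pool.Agent.H488.E.Nam2
import Pool.Agent.H488.E.Cst

/-!
# `ζ(3)/π³`, odd zeta values and Poisson means of tails over the field `ℚ(π)`, at every scale

Let `W` be the ring which is generated by the algebraic numbers, the numbers `e^b`, `b` algebraic, and
the iterated integrals from `0` to `1` of words in the forms `dt/t` and `(e^(a t) - 1) dt/t`, `a`
algebraic. Nothing is known on the algebraic independence of `π` and of numbers of `W` in general. By
complex conjugation we can adjoin `π`, or another real number which has a transcendence measure, to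
the numbers of `W` at points which are not real:

(1) Let `t` be a real number with a transcendence measure which is polynomial in the height, for every
degree; for instance `t = π`, or `t = log q`, `q ≠ 1` a positive rational number. Let `w_1, …, w_r` be
numbers of `W` which are algebraically independent together with their complex conjugates. Then
`t, w_1, …, w_r` have a measure of algebraic independence, polynomial in the height.

Let `T_k(x) = e^(-x) ∑_j (x^j / j!) ∑_(i > j) 1/i^k`, the Poisson mean of the tails of `ζ(k)`. Let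
`β_1, …, β_n` be algebraic numbers which are, together with their complex conjugates, linearly
independent over `ℚ`, and `E = (t, e^(β_1), …, e^(β_n))`; `n = 0` is allowed. Let `k_i ≥ 2`, and let
`x_i` be algebraic numbers such that no sum `x_i + x_j`, `x_i + conj x_j` is zero and the pairs
`(k_i, x_i)`, `(k_j, conj x_j)` are all different; so the `x_i` are not real.

A number `u` is near at the scale `H` if `|P(u, E)| ≤ H^(-w)` for some nonzero integer polynomial `P`
of degree at most `d` in each variable and with coefficients of absolute value at most `H`.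

(2) Let `y_1, …, y_s` be ANY complex numbers such that the `ζ(k_i)` are polynomials in `y` and `E` with
rational coefficients. Then the numbers `y_1, …, y_s, T_(k_i)(x_i)` obey the following laws.
* Joint measure: for any `s + 1` of the numbers `u_i` and nonzero polynomials `P_i` of height at most
  `H` one has `max |P_i(u_i, E)| ≥ c H^(-κ)`.
* So at every large scale at most `s` of them are near. The dichotomy of scales: let exactly `s` be
  near at the large scale `H`. Either they are algebraic over `ℚ(E)`, and then no other one is near at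
  any later scale; or there is `Z ≥ H` such that no other one is near between `H` and `Z`, and fewer
  than `s` are near at all scales between `Z` and `Z^A`.
* The zero-one law: at least `s` of the numbers are algebraic of degree at most `d` over `ℚ(E)` if
  and only if at all large scales at least `s` of them are near.

(3) For `t = π` this holds, with `s = c`, for the numbers `ζ(2j+3) / π^(e_j)`, `0 ≤ j < c`, and the
`T_(k_i)(x_i)` with `k_i ≤ 2c + 2`. For `c = 0`: the numbers `T_2(x_i)` have transcendence measures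
over `ℚ(π, e^β)`. For `c = 1`: at every large scale at most one of the numbers `ζ(3)/π³`, `T_2(x_i)`,
`T_3(x_i)`, `T_4(x_i)` is near; at most one of them is algebraic over `ℚ(π, e^β)`, for instance of the
numbers `ζ(3)/π³`, `T_3(x_i)/π³` at most one is rational.
-/

set_option autoImplicit false

namespace Pool.Agent.Results.MP_e47f08_nt.OverTheFieldOfPi

/-- the nonzero integer polynomials in the variables `σ`, of degree at most `d` in every variable,
with coefficients of absolute value at most `H` -/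
def Poly (σ : Type) (d : ℕ) (H : ℝ) : Set (MvPolynomial σ ℤ) :=
  {P | P ≠ 0 ∧ (∀ i, P.degreeOf i ≤ d) ∧ ∀ m, |((P.coeff m : ℤ) : ℝ)| ≤ H}

/-- The numbers `x i` have a measure of algebraic independence, polynomial in the height for every
degree. -/
def HasMeasure {σ : Type} (x : σ → ℂ) : Prop :=
  ∀ d : ℕ, ∃ κ : ℕ, ∃ c : ℝ, 0 < c ∧ ∀ H : ℝ, 1 ≤ H → ∀ P ∈ Poly σ d H,
    c / H ^ κ ≤ ‖MvPolynomial.aeval x P‖

/-- the iterated integral from `0` to `t` of the word `w`; the letter `a ≠ 0` stands for the form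
`(e^(a s) - 1) ds / s` and the letter `0` for the form `ds / s` -/
noncomputable def iterated : List ℂ → ℝ → ℂ
  | [], _ => 1
  | a :: v, t => ∫ s in (0 : ℝ)..t, (if a = 0 then 1 else Complex.exp (a * s) - 1) * iterated v s / s

/-- the ring generated by the algebraic numbers, the numbers `e^b`, `b` algebraic, and the iterated
integrals from `0` to `1` of the words with algebraic letters, the last of which is not zero -/
def W : Subring ℂ :=
  Subring.closure ({z | IsAlgebraic ℚ z} ∪ {z | ∃ b : ℂ, IsAlgebraic ℚ b ∧ z = Complex.exp b} ∪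
    {z | ∃ w : List ℂ, (∀ a ∈ w, IsAlgebraic ℚ a) ∧ (∀ h : w ≠ [], w.getLast h ≠ 0) ∧
      z = iterated w 1})

/-- the value `P(u, η)` at `u` and the numbers `η_l`; the variable `none` stands for `u` -/
noncomputable def value {ρ : Type} (η : ρ → ℂ) (u : ℂ) (P : MvPolynomial (Option ρ) ℤ) : ℂ :=
  MvPolynomial.aeval (fun o : Option ρ => o.elim u η) P

/-- the indices of the numbers `u i` which are near at the scale `H` -/
def near {ρ ι : Type} (η : ρ → ℂ) (d w : ℕ) (u : ι → ℂ) (H : ℝ) : Set ι :=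
  {i | ∃ P ∈ Poly (Option ρ) d H, ‖value η (u i) P‖ ≤ 1 / H ^ w}

/-- `x` is a zero of a nonzero polynomial of degree at most `d` in every variable -/
def Alg {ρ : Type} (η : ρ → ℂ) (d : ℕ) (x : ℂ) : Prop :=
  ∃ P : MvPolynomial (Option ρ) ℤ, P ≠ 0 ∧ (∀ o, P.degreeOf o ≤ d) ∧ value η x P = 0

/-- the joint measure of any `s + 1` of the numbers `u i` -/
def JointMeasure {ρ ι : Type} (s : ℕ) (η : ρ → ℂ) (d κ : ℕ) (u : ι → ℂ) : Prop :=
  ∃ c : ℝ, 0 < c ∧ ∀ S : Finset ι, S.card = s + 1 → ∀ H : ℝ, 1 ≤ H →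
    ∀ P : ι → MvPolynomial (Option ρ) ℤ, (∀ i ∈ S, P i ∈ Poly (Option ρ) d H) →
      ∃ i ∈ S, c / H ^ κ ≤ ‖value η (u i) (P i)‖

/-- the dichotomy of scales and the zero-one law -/
def Law {ρ ι : Type} (s : ℕ) (η : ρ → ℂ) (d w A : ℕ) (u : ι → ℂ) : Prop :=
  (∃ H₀ : ℝ, ∀ H : ℝ, H₀ ≤ H → (near η d w u H).ncard ≤ s ∧ ((near η d w u H).ncard = s →
    ((∀ i ∈ near η d w u H, Alg η d (u i)) ∧
      ∀ Y : ℝ, H ≤ Y → near η d w u Y ⊆ near η d w u H) ∨
    ∃ Z : ℝ, H ≤ Z ∧ (∀ Y : ℝ, H ≤ Y → Y ≤ Z → near η d w u Y ⊆ near η d w u H) ∧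
      ∀ Y : ℝ, Z < Y → Y ≤ Z ^ A → (near η d w u Y).ncard < s)) ∧
  ((∃ S : Finset ι, S.card = s ∧ ∀ i ∈ S, Alg η d (u i)) ↔
    ∃ H₁ : ℝ, ∀ H : ℝ, H₁ ≤ H → s ≤ (near η d w u H).ncard)

/-- joint measure and law for every degree -/
def Laws {ρ ι : Type} (s : ℕ) (η : ρ → ℂ) (u : ι → ℂ) : Prop :=
  ∀ d : ℕ, (∃ κ : ℕ, JointMeasure s η d κ u) ∧ ∀ A : ℕ, 2 ≤ A → ∃ w : ℕ, Law s η d w A u

/-- the Poisson mean `T_k(x)` of the tails of `ζ(k)` -/
noncomputable def tailMean (k : ℕ) (x : ℂ) : ℂ :=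
  Complex.exp (-x) * ∑' j : ℕ, x ^ j / j.factorial * ∑' i : ℕ, 1 / ((i : ℂ) + j + 1) ^ k

/-- the numbers `t, e^(β_1), …, e^(β_n)` -/
noncomputable def base {n : ℕ} (t : ℝ) (β : Fin n → ℂ) : Option (Fin n) → ℂ :=
  fun o => o.elim (t : ℂ) fun j => Complex.exp (β j)

/-- algebraic numbers `β_j` which are linearly independent over `ℚ` together with their complex
conjugates -/
def ExponentData {n : ℕ} (β : Fin n → ℂ) : Prop :=
  (∀ j, IsAlgebraic ℚ (β j)) ∧ LinearIndependent ℚ (Sum.elim β fun j => (starRingEnd ℂ) (β j))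

/-- integers `k_i ≥ 2` and algebraic arguments `x_i`; the pairs `(k_i, x_i)` and `(k_j, conj x_j)` are
all different, and no sum `x_i + x_j`, `x_i + conj x_j` is zero -/
def TailData {r : ℕ} (k : Fin r → ℕ) (x : Fin r → ℂ) : Prop :=
  (∀ i, 2 ≤ k i) ∧ (∀ i, IsAlgebraic ℚ (x i)) ∧
    (∀ i j, x i + x j ≠ 0 ∧ x i + (starRingEnd ℂ) (x j) ≠ 0) ∧
    (Function.Injective fun i => (k i, x i)) ∧ ∀ i j, (k i, x i) ≠ (k j, (starRingEnd ℂ) (x j))

open Pool.Agent.H488.M (Bd Meas vl)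

lemma hasMeasure_iff {σ : Type} (x : σ → ℂ) : HasMeasure x ↔ Meas x := by
  constructor
  · intro h d
    obtain ⟨κ, c, hc, h⟩ := h d
    refine ⟨κ, c, hc, fun P hP H hH hB => ?_⟩
    have h1 := h H hH P ⟨hP, hB.1, hB.2⟩
    rwa [div_le_iff₀ (by positivity), mul_comm] at h1
  · intro h d
    obtain ⟨κ, c, hc, h⟩ := h d
    refine ⟨κ, c, hc, fun H hH P hP => ?_⟩
    have h1 := h P hP.1 H hH ⟨hP.2.1, hP.2.2⟩
    rwa [div_le_iff₀ (by positivity), mul_comm]

lemma iterated_eq (w : List ℂ) : ∀ t : ℝ, iterated w t = Pool.Agent.N902.EW.II w t := by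
  induction w with
  | nil => intro t; rfl
  | cons a v ih =>
    intro t
    rw [iterated, Pool.Agent.N902.EW.II]
    simp only [ih]

lemma mem_W {z : ℂ} (hz : z ∈ W) : z ∈ (Pool.Agent.N902.EW.evA Pool.Agent.N902.EW.io).range := by
  suffices h : W ≤ (Pool.Agent.N902.EW.evA Pool.Agent.N902.EW.io).range from h hz
  refine Subring.closure_le.2 ?_
  rintro z ((hz | ⟨b, hb, rfl⟩) | ⟨w, hw, hw', rfl⟩)
  · obtain ⟨c, rfl⟩ := Pool.Agent.N902.EW.mem_range_io hz
    exact ⟨_, Pool.Agent.N902.EW.evA_algebraMap c⟩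
  · obtain ⟨b', rfl⟩ := Pool.Agent.N902.EW.mem_range_io hb
    refine ⟨Pool.Agent.N902.EW.mk b' [] Pool.Agent.N902.EW.adm_nil, ?_⟩
    rw [Pool.Agent.N902.EW.evA_mk, Pool.Agent.N902.EW.evk_ex, Pool.Agent.N902.EW.U_nil,
      Pool.Agent.N902.EW.evk_one, mul_one]
  · obtain ⟨v, rfl, hv⟩ := Pool.Agent.N902.EW.exists_word (w := w) ⟨hw, hw'⟩
    refine ⟨Pool.Agent.N902.EW.mk 0 v hv, ?_⟩
    rw [Pool.Agent.N902.EW.evA_mk, Pool.Agent.N902.EW.evk_ex_zero, one_mul, iterated_eq,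
      Pool.Agent.N902.EW.II_one v hv]

lemma iterated_conj (w : List ℂ) : ∀ t : ℝ, (starRingEnd ℂ) (iterated w t) =
    iterated (w.map (starRingEnd ℂ)) t := by
  induction w with
  | nil => intro t; simp [iterated]
  | cons a v ih =>
    intro t
    rw [List.map_cons, iterated, iterated, ← intervalIntegral.intervalIntegral_conj]
    refine intervalIntegral.integral_congr fun s _ => ?_
    have h0 : (starRingEnd ℂ) a = 0 ↔ a = 0 := map_eq_zero _
    by_cases h : a = 0
    · simp only [h, map_zero, if_true, one_mul, map_div₀, ih, Complex.conj_ofReal]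
    · have h' : (starRingEnd ℂ) a ≠ 0 := fun h1 => h (h0.1 h1)
      simp only [if_neg h, if_neg h', map_div₀, map_mul, map_sub, map_one, ih, Complex.conj_ofReal,
        ← Complex.exp_conj]

lemma conj_W {z : ℂ} (hz : z ∈ W) : (starRingEnd ℂ) z ∈ W := by
  suffices h : W ≤ W.comap (starRingEnd ℂ) from h hz
  refine Subring.closure_le.2 ?_
  rintro z ((hz | ⟨b, hb, rfl⟩) | ⟨w, hw, hw', rfl⟩)
  · exact Subring.subset_closure (Or.inl (Or.inl (Pool.Agent.H596.Q.conj_alg z hz)))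
  · refine Subring.subset_closure (Or.inl (Or.inr ⟨(starRingEnd ℂ) b,
      Pool.Agent.H596.Q.conj_alg b hb, ?_⟩))
    rw [Complex.exp_conj]
  · refine Subring.subset_closure (Or.inr ⟨w.map (starRingEnd ℂ), fun a ha => ?_, fun h => ?_, ?_⟩)
    · obtain ⟨a', ha', rfl⟩ := List.mem_map.1 ha
      exact Pool.Agent.H596.Q.conj_alg a' (hw a' ha')
    · rw [List.getLast_map]
      have h0 : w ≠ [] := fun h1 => h (by rw [h1]; rfl)
      intro h1
      exact hw' h0 ((map_eq_zero _).1 h1)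
    · rw [← iterated_conj]

/-- measures of one number -/
lemma measT_of (t : ℝ) (h : HasMeasure fun _ : Fin 1 => (t : ℂ)) :
    Pool.Agent.TH456.TM.MeasT (t : ℂ) := by
  classical
  intro D
  obtain ⟨κ, c, hc, h⟩ := (hasMeasure_iff _).1 h D
  refine ⟨κ, c, Nat.cast_nonneg κ, hc, fun P hP hPD H hH hPH => ?_⟩
  obtain ⟨P', hP'⟩ : ∃ P' : MvPolynomial (Fin 1) ℤ, P' = ∑ k ∈ P.support,
      MvPolynomial.monomial (Finsupp.single 0 k) (P.coeff k) := ⟨_, rfl⟩
  have hco : ∀ m : Fin 1 →₀ ℕ, P'.coeff m = P.coeff (m 0) := by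
    intro m
    have hm : m = Finsupp.single 0 (m 0) := Finsupp.ext fun i => by
      rw [Subsingleton.elim i 0, Finsupp.single_eq_same]
    rw [hP', MvPolynomial.coeff_sum]
    simp only [MvPolynomial.coeff_monomial]
    rw [Finset.sum_congr rfl (g := fun k => if k = m 0 then P.coeff k else 0) (fun k _ => by
      by_cases h1 : k = m 0
      · rw [if_pos h1, if_pos (by rw [h1]; exact hm.symm)]
      · rw [if_neg h1, if_neg (fun h2 => h1 (by rw [← h2, Finsupp.single_eq_same]))])]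
    rw [Finset.sum_ite_eq']
    split_ifs with h1
    · rfl
    · exact (Polynomial.notMem_support_iff.1 h1).symm
  have hP'0 : P' ≠ 0 := by
    intro h0
    apply hP
    ext k
    have h1 := hco (Finsupp.single 0 k)
    rw [h0, MvPolynomial.coeff_zero, Finsupp.single_eq_same] at h1
    rw [← h1, Polynomial.coeff_zero]
  have h1 := h P' hP'0 H hH ⟨fun i => ?_, fun m => by rw [hco]; exact hPH _⟩
  · have hv : MvPolynomial.aeval (fun _ : Fin 1 => (t : ℂ)) P' = Polynomial.aeval (t : ℂ) P := by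
      rw [hP', map_sum, Polynomial.aeval_def, Polynomial.eval₂_eq_sum, Polynomial.sum_def]
      refine Finset.sum_congr rfl fun k _ => ?_
      rw [MvPolynomial.aeval_monomial,
        Finsupp.prod_single_index (h := fun _ k => (t : ℂ) ^ k) (pow_zero _)]
    rw [hv] at h1
    rw [Real.rpow_natCast]
    exact h1
  · rw [MvPolynomial.degreeOf_le_iff]
    intro m hm
    rw [MvPolynomial.mem_support_iff, hco] at hm
    rw [Subsingleton.elim i 0]
    exact (Polynomial.le_natDegree_of_ne_zero hm).trans hPD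

lemma measure_of (t : ℝ) (h : Pool.Agent.TH456.TM.MeasT (t : ℂ)) :
    HasMeasure fun _ : Fin 1 => (t : ℂ) := by
  have h0 : Meas fun i : Fin 0 => Complex.exp ((Fin.elim0 : Fin 0 → ℂ) i) :=
    Pool.Agent.H488.M.meas_exp (n := 0) Fin.elim0 (fun i => i.elim0) linearIndependent_empty_type
  have h1 := h0.comp (Sum.elim id id : Fin 0 ⊕ Fin 0 → Fin 0) (by rintro (i | i) <;> exact i.elim0)
  have h2 : Meas (Sum.elim (Fin.elim0 : Fin 0 → ℂ) fun i : Fin 0 =>
      (starRingEnd ℂ) ((Fin.elim0 : Fin 0 → ℂ) i)) := by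
    have h3 : (fun i => Complex.exp ((Fin.elim0 : Fin 0 → ℂ)
        ((Sum.elim id id : Fin 0 ⊕ Fin 0 → Fin 0) i))) =
        Sum.elim (Fin.elim0 : Fin 0 → ℂ) fun i : Fin 0 =>
        (starRingEnd ℂ) ((Fin.elim0 : Fin 0 → ℂ) i) := by
      funext i
      rcases i with i | i <;> exact i.elim0
    rwa [h3] at h1
  have h4 := Pool.Agent.H488.E.meas_real t h (Fin.elim0 : Fin 0 → ℂ) h2
  exact (hasMeasure_iff _).2 (h4.comp (fun _ : Fin 1 => (none : Option (Fin 0)))
    fun a b _ => Subsingleton.elim a b)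

/-- (1) -/
theorem measure_W {r : ℕ} (t : ℝ) (ht : HasMeasure fun _ : Fin 1 => (t : ℂ)) (w : Fin r → ℂ)
    (hw : ∀ i, w i ∈ W)
    (h : AlgebraicIndependent ℚ (Sum.elim w fun i => (starRingEnd ℂ) (w i))) :
    HasMeasure fun o : Option (Fin r) => o.elim (t : ℂ) w := by
  refine (hasMeasure_iff _).2 (Pool.Agent.H488.E.meas_real t (measT_of t ht) w
    (Pool.Agent.H488.E.meas_range _ ?_ h))
  rintro (i | i)
  · exact mem_W (hw i)
  · exact mem_W (conj_W (hw i))

lemma near_eq {ρ ι : Type} [Fintype ρ] [Fintype ι] (η : ρ → ℂ) (u : ι → ℂ) (d w : ℕ) (H : ℝ) :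
    near η d w u H = Pool.Agent.H488.E.Nr η u d w H := by
  ext i
  constructor
  · rintro ⟨P, hP, h⟩
    exact ⟨P, hP.1, ⟨hP.2.1, hP.2.2⟩, h⟩
  · rintro ⟨P, hP, hB, h⟩
    exact ⟨P, ⟨hP, hB.1, hB.2⟩, h⟩

/-- the joint measure -/
theorem joint_of {ρ ι : Type} [Fintype ρ] [Fintype ι] (s : ℕ) (η : ρ → ℂ) (u : ι → ℂ) (d : ℕ)
    (h : ∃ (k₁ : ℕ) (h₁ : ℝ), 1 ≤ h₁ ∧ Pool.Agent.H488.E.Jm s η u d k₁ h₁) :
    ∃ κ : ℕ, JointMeasure s η d κ u := by
  obtain ⟨κ, H₀, hH₀, h⟩ := h
  refine ⟨κ, 1 / H₀ ^ κ, by positivity, fun S hS H hH P hP => ?_⟩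
  rcases le_total H₀ H with h1 | h1
  · obtain ⟨i, hi, h2⟩ := h H h1 S hS P fun i hi => ⟨(hP i hi).1, (hP i hi).2.1, (hP i hi).2.2⟩
    refine ⟨i, hi, ?_⟩
    rw [div_le_iff₀ (by positivity), mul_comm]
    refine le_trans ?_ h2.le
    rw [div_le_one (by positivity)]
    exact one_le_pow₀ hH₀
  · obtain ⟨i, hi, h2⟩ := h H₀ le_rfl S hS P
      fun i hi => ⟨(hP i hi).1, (hP i hi).2.1, fun l => ((hP i hi).2.2 l).trans h1⟩
    refine ⟨i, hi, ?_⟩
    have h3 : 1 / H₀ ^ κ / H ^ κ ≤ 1 / H₀ ^ κ :=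
      div_le_self (by positivity) (one_le_pow₀ hH)
    refine h3.trans ?_
    rw [div_le_iff₀ (by positivity), mul_comm]
    exact h2.le

/-- the dichotomy and the zero-one law -/
theorem law_of {ρ ι : Type} [Fintype ρ] [Fintype ι] (s : ℕ) (η : ρ → ℂ) (hη : HasMeasure η)
    (u : ι → ℂ) (d : ℕ) (h : ∃ (k₁ : ℕ) (h₁ : ℝ), 1 ≤ h₁ ∧ Pool.Agent.H488.E.Jm s η u d k₁ h₁)
    (A : ℕ) (hA : 2 ≤ A) : ∃ w : ℕ, Law s η d w A u := by
  classical
  obtain ⟨k₁, h₁, hh₁, hj⟩ := h
  obtain ⟨w, h⟩ := Pool.Agent.H488.E.dichA (ι := ι) s η ((hasMeasure_iff _).1 hη) d A k₁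
  obtain ⟨H₀, hH₀, h⟩ := h u h₁ hh₁ hj
  refine ⟨w, ?_⟩
  obtain ⟨N, hN⟩ : ∃ N : ℝ → Set ι, N = fun H => near η d w u H := ⟨_, rfl⟩
  have hN' : ∀ H, near η d w u H = N H := fun H => by rw [hN]
  have hNe : ∀ H, Pool.Agent.H488.E.Nr η u d w H = N H := fun H => by rw [← hN', near_eq]
  have hd : ∀ H : ℝ, H₀ ≤ H → (N H).ncard ≤ s ∧ ((N H).ncard = s →
      ((∀ i ∈ N H, Alg η d (u i)) ∧
        ∀ Y : ℝ, H ≤ Y → N Y ⊆ N H) ∨
      ∃ Z : ℝ, H ≤ Z ∧ (∀ Y : ℝ, H ≤ Y → Y ≤ Z → N Y ⊆ N H) ∧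
        ∀ Y : ℝ, Z < Y → Y ≤ Z ^ A → (N Y).ncard < s) := by
    intro H hH
    have h1 := h H hH
    simp only [hNe] at h1
    exact h1
  unfold Law
  simp only [hN']
  refine ⟨⟨H₀, hd⟩, ?_, ?_⟩
  · rintro ⟨S, hS, hal⟩
    have hch : ∀ i, ∃ h₁ : ℝ, i ∈ S → ∀ H : ℝ, h₁ ≤ H → i ∈ N H := by
      intro i
      by_cases hi : i ∈ S
      · obtain ⟨P, hP, hPd, hPv⟩ := hal i hi
        refine ⟨max 1 (∑ l ∈ P.support, |((P.coeff l : ℤ) : ℝ)|), fun _ H hH => ?_⟩
        rw [hN]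
        refine ⟨P, ⟨hP, hPd, fun l => ?_⟩, ?_⟩
        · refine le_trans ?_ ((le_max_right _ _).trans hH)
          by_cases hl : l ∈ P.support
          · exact Finset.single_le_sum (f := fun l => |((P.coeff l : ℤ) : ℝ)|)
              (fun _ _ => abs_nonneg _) hl
          · rw [MvPolynomial.notMem_support_iff.1 hl, Int.cast_zero, abs_zero]
            exact Finset.sum_nonneg fun _ _ => abs_nonneg _
        · rw [hPv, norm_zero]
          have : 0 < H := by
            have := (le_max_left 1 (∑ l ∈ P.support, |((P.coeff l : ℤ) : ℝ)|)).trans hH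
            linarith
          positivity
      · exact ⟨0, fun h => absurd h hi⟩
    choose h₁ hh₁ using hch
    refine ⟨∑ i, |h₁ i|, fun H hH => ?_⟩
    rw [← hS, ← Set.ncard_coe_finset]
    refine Set.ncard_le_ncard fun i hi => hh₁ i hi H ?_
    exact (le_abs_self _).trans ((Finset.single_le_sum (f := fun i => |h₁ i|)
      (fun _ _ => abs_nonneg _) (Finset.mem_univ i)).trans hH)
  · rintro ⟨H₁, h1⟩
    obtain ⟨H, hH⟩ : ∃ H : ℝ, H = max (max H₀ H₁) 2 := ⟨_, rfl⟩
    have hHH₀ : H₀ ≤ H := by rw [hH]; exact (le_max_left _ _).trans (le_max_left _ _)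
    have hHH₁ : H₁ ≤ H := by rw [hH]; exact (le_max_right _ _).trans (le_max_left _ _)
    have hH2 : 2 ≤ H := by rw [hH]; exact le_max_right _ _
    have hle := h1 H hHH₁
    obtain ⟨h2, h3⟩ := hd H hHH₀
    have hcard : (N H).ncard = s := le_antisymm h2 hle
    have hfin : (N H).Finite := Set.toFinite _
    rcases h3 hcard with h4 | ⟨Z, hZ, -, h5⟩
    · refine ⟨hfin.toFinset, ?_, fun i hi => h4.1 i (by rwa [Set.Finite.mem_toFinset] at hi)⟩
      rw [← Set.ncard_eq_toFinset_card _ hfin, hcard]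
    · exfalso
      have hZ2 : 2 ≤ Z := hH2.trans hZ
      have hlt : Z < Z ^ A := by
        calc Z < Z ^ 2 := by nlinarith
          _ ≤ Z ^ A := pow_le_pow_right₀ (by linarith) hA
      have h6 := h5 (Z ^ A) hlt le_rfl
      have h7 := h1 (Z ^ A) (by linarith)
      omega

lemma base_eq {n : ℕ} (t : ℝ) (β : Fin n → ℂ) : base t β = Pool.Agent.H488.E.bs t β := rfl

lemma laws_of {n : ℕ} {ι : Type} [Fintype ι] (s : ℕ) (t : ℝ)
    (ht : Pool.Agent.TH456.TM.MeasT (t : ℂ)) (β : Fin n → ℂ) (hβ : ExponentData β) (u : ι → ℂ)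
    (h : ∀ d : ℕ, ∃ (k₁ : ℕ) (h₁ : ℝ), 1 ≤ h₁ ∧ Pool.Agent.H488.E.Jm s (base t β) u d k₁ h₁) :
    Laws s (base t β) u := by
  have hM : Meas (base t β) := by
    have h1 := Pool.Agent.H488.E.meas_tth (κ₁ := Fin 0) (κ₂ := Fin 0) t ht Fin.elim0 Fin.elim0
      Fin.elim0 Fin.elim0 β (fun i => i.elim0) (fun i => i.elim0) (fun i => i.elim0)
      (fun i => i.elim0) (fun i => i.elim0) (fun i => i.elim0) (fun i => i.elim0) (fun i => i.elim0)
      (fun i => i.elim0) (fun i => i.elim0) hβ.1 hβ.2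
    exact h1.comp Sum.inr Sum.inr_injective
  exact fun d => ⟨joint_of s _ u d (h d), fun A hA => law_of s _
    ((hasMeasure_iff _).2 hM) u d (h d) A hA⟩

lemma jm_comp {ρ ι ι' : Type} [Fintype ρ] [Fintype ι] [Fintype ι'] {s : ℕ} {η : ρ → ℂ} {u : ι → ℂ}
    {d k₁ : ℕ} {h₁ : ℝ} (h : Pool.Agent.H488.E.Jm s η u d k₁ h₁) (f : ι' ≃ ι) :
    Pool.Agent.H488.E.Jm s η (fun i => u (f i)) d k₁ h₁ := by
  intro H hH S hS P hP
  obtain ⟨i, hi, hlt⟩ := h H hH (S.map f.toEmbedding) (by rw [Finset.card_map, hS])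
    (fun i => P (f.symm i)) (fun i hi => by
      obtain ⟨j, hj, rfl⟩ := Finset.mem_map.1 hi
      have e : f.symm (f.toEmbedding j) = j := f.symm_apply_apply j
      simp only [e]
      exact hP j hj)
  obtain ⟨j, hj, rfl⟩ := Finset.mem_map.1 hi
  refine ⟨j, hj, ?_⟩
  have e : f.symm (f.toEmbedding j) = j := f.symm_apply_apply j
  simp only [e] at hlt
  exact hlt

/-- (2) -/
theorem laws_tail {n r : ℕ} (t : ℝ) (ht : Pool.Agent.TH456.TM.MeasT (t : ℂ)) (β : Fin n → ℂ)
    (hβ : ExponentData β) (k : Fin r → ℕ) (x : Fin r → ℂ) (hT : TailData k x) {s : ℕ}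
    (y : Fin s → ℂ) (hy : ∀ i, riemannZeta (k i) ∈
      Algebra.adjoin ℚ (Set.range (Sum.elim y (base t β)))) :
    Laws s (base t β) (Sum.elim y fun i => tailMean (k i) (x i)) := by
  obtain ⟨hk, hx, hx2, hkx, hkx2⟩ := hT
  refine laws_of s t ht β hβ _ fun d => ?_
  obtain ⟨k₁, h₁, hh₁, h⟩ := Pool.Agent.H488.E.jm_names2 (κ₁ := Fin 0) t ht y Fin.elim0 Fin.elim0 k x
    β (fun i => i.elim0) (fun i => i.elim0) (fun i => i.elim0) (fun i => i.elim0) hk hx
    (fun i j => (hx2 i j).1) (fun i j => (hx2 i j).2) hkx hkx2 hβ.1 hβ.2 (fun i => i.elim0)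
    (fun i => i.elim0) hy (fun i => i.elim0) (fun i => i.elim0) d
  rw [Fintype.card_fin] at h
  refine ⟨k₁, h₁, hh₁, ?_⟩
  have h2 := jm_comp h (Equiv.sumCongr (Equiv.refl (Fin s)) (Equiv.emptySum (Fin 0) (Fin r)).symm)
  have h3 : (fun i => (Sum.elim y (Pool.Agent.H488.E.nm Fin.elim0 Fin.elim0 k x))
      ((Equiv.sumCongr (Equiv.refl (Fin s)) (Equiv.emptySum (Fin 0) (Fin r)).symm) i)) =
      Sum.elim y fun i => tailMean (k i) (x i) := by
    funext i
    rcases i with i | i <;> rfl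
  rw [h3] at h2
  exact h2

/-- **`ζ(3)/π³` and odd zeta values over the field of `π`.** -/
theorem result :
    -- (1) measures of algebraic independence
    (HasMeasure fun _ : Fin 1 => (Real.pi : ℂ)) ∧
    (∀ q : ℚ, 0 < q → q ≠ 1 → HasMeasure fun _ : Fin 1 => ((Real.log q : ℝ) : ℂ)) ∧
    (∀ t : ℝ, (HasMeasure fun _ : Fin 1 => (t : ℂ)) → ∀ (r : ℕ) (w : Fin r → ℂ), (∀ i, w i ∈ W) →
      AlgebraicIndependent ℚ (Sum.elim w fun i => (starRingEnd ℂ) (w i)) →
      HasMeasure fun o : Option (Fin r) => o.elim (t : ℂ) w) ∧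
    -- (2) any `s` numbers `y` and the Poisson means of the tails, over a real number `t`
    (∀ t : ℝ, (HasMeasure fun _ : Fin 1 => (t : ℂ)) → ∀ (n : ℕ) (β : Fin n → ℂ), ExponentData β →
      ∀ (r : ℕ) (k : Fin r → ℕ) (x : Fin r → ℂ), TailData k x → ∀ (s : ℕ) (y : Fin s → ℂ),
      (∀ i, riemannZeta (k i) ∈ Algebra.adjoin ℚ (Set.range (Sum.elim y (base t β)))) →
      Laws s (base t β) (Sum.elim y fun i => tailMean (k i) (x i))) ∧
    -- (3) odd zeta values over powers of `π`, over the field of `π`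
    (∀ (n : ℕ) (β : Fin n → ℂ), ExponentData β →
      ∀ (r : ℕ) (k : Fin r → ℕ) (x : Fin r → ℂ), TailData k x → ∀ (c : ℕ) (e : Fin c → ℕ),
      (∀ i, k i ≤ 2 * c + 2) → Laws c (base Real.pi β)
        (Sum.elim (fun j : Fin c => riemannZeta ((2 * (j : ℕ) + 3 : ℕ) : ℂ) / (Real.pi : ℂ) ^ e j)
          fun i => tailMean (k i) (x i))) := by
  refine ⟨measure_of _ Pool.Agent.TH456.TM.measT_pi,
    fun q hq hq1 => measure_of _ (Pool.Agent.TH456.TM.measT_real_log q hq hq1),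
    fun t ht r w hw h => measure_W t ht w hw h,
    fun t ht n β hβ r k x hT s y hy => laws_tail t (measT_of t ht) β hβ k x hT y hy, ?_⟩
  intro n β hβ r k x hT c e hk
  refine laws_tail Real.pi Pool.Agent.TH456.TM.measT_pi β hβ k x hT _ fun i => ?_
  obtain ⟨S, hS⟩ : ∃ S : Subalgebra ℚ ℂ, S = Algebra.adjoin ℚ (Set.range (Sum.elim
    (fun j : Fin c => riemannZeta ((2 * (j : ℕ) + 3 : ℕ) : ℂ) / (Real.pi : ℂ) ^ e j)
    (base Real.pi β))) := ⟨_, rfl⟩
  have hpi : (Real.pi : ℂ) ∈ S := by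
    rw [hS]; exact Algebra.subset_adjoin ⟨Sum.inr none, rfl⟩
  have hpi0 : (Real.pi : ℂ) ≠ 0 := by exact_mod_cast Real.pi_ne_zero
  rw [← hS]
  obtain ⟨m, hm⟩ : ∃ m, m = k i := ⟨_, rfl⟩
  have hm2 : 2 ≤ m := by rw [hm]; exact hT.1 i
  have hmc : m ≤ 2 * c + 2 := by rw [hm]; exact hk i
  rw [← hm]
  rcases Nat.even_or_odd' m with ⟨j, hj | hj⟩
  · have h1 := riemannZeta_two_mul_nat (show j ≠ 0 by omega)
    have h2 : riemannZeta ((m : ℕ) : ℂ) = algebraMap ℚ ℂ ((-1) ^ (j + 1) * 2 ^ (2 * j - 1) *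
        bernoulli (2 * j) / (2 * j).factorial) * (Real.pi : ℂ) ^ (2 * j) := by
      rw [hj, map_div₀, map_mul, map_mul, map_pow, map_pow, map_neg, map_one, map_ofNat,
        map_natCast, eq_ratCast]
      push_cast
      rw [h1]
      ring
    rw [h2]
    exact S.mul_mem (S.algebraMap_mem _) (S.pow_mem hpi _)
  · have hj2 : j - 1 < c := by omega
    have h1 : riemannZeta ((2 * ((⟨j - 1, hj2⟩ : Fin c) : ℕ) + 3 : ℕ) : ℂ) /
        (Real.pi : ℂ) ^ e ⟨j - 1, hj2⟩ ∈ S := by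
      rw [hS]; exact Algebra.subset_adjoin ⟨Sum.inl ⟨j - 1, hj2⟩, rfl⟩
    have h2 := S.mul_mem h1 (S.pow_mem hpi (e ⟨j - 1, hj2⟩))
    rw [div_mul_cancel₀ _ (pow_ne_zero _ hpi0)] at h2
    have h3 : 2 * ((⟨j - 1, hj2⟩ : Fin c) : ℕ) + 3 = m := by
      show 2 * (j - 1) + 3 = m
      omega
    rw [h3] at h2
    exact h2

end Pool.Agent.Results.MP_e47f08_nt.OverTheFieldOfPi
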